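import Pool.Agent.Work.MP_ddc6c3_co.NoBound

set_option autoImplicit false

namespace Pool.Agent.Results.MP_ddc6c3_co.NoBound

open Set

/-- A convex body: a compact convex set with nonempty interior. -/
def IsConvexBody {d : ℕ} (B : Set (EuclideanSpace ℝ (Fin d))) : Prop :=
  IsCompact B ∧ Convex ℝ B ∧ (interior B).Nonempty

/-- The family `K` of closed convex sets is an intersectional configuration of class `n`: the
intersection of all members is a convex body, properly contained in every member, and `n` is the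
least `m ≥ 2` such that the intersection of any `m` members is this body. -/
structure IsConfiguration {d : ℕ} {I : Type} (n : ℕ) (K : I → Set (EuclideanSpace ℝ (Fin d))) :
    Prop where
  closed : ∀ α, IsClosed (K α)
  convex : ∀ α, Convex ℝ (K α)
  body : IsConvexBody (⋂ β, K β)
  proper : ∀ α, (⋂ β, K β) ⊂ K α
  cls : IsLeast {m : ℕ | 2 ≤ m ∧ ∀ S : Finset I, S.card = m → (⋂ α ∈ S, K α) = ⋂ β, K β} n

/-- In every dimension `d ≥ 4`, for every class `n ≥ 2` and every `N`, there is a finite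
intersectional configuration of class `n`, with distinct members, whose union is not a union of
`N` convex sets (closed or not). -/
theorem result (d n N : ℕ) (hd : 4 ≤ d) (hn : 2 ≤ n) :
    ∃ (I : Type) (_ : Finite I) (K : I → Set (EuclideanSpace ℝ (Fin d))),
      IsConfiguration n K ∧ Function.Injective K ∧
        ∀ C : Fin N → Set (EuclideanSpace ℝ (Fin d)), (∀ a, Convex ℝ (C a)) →
          (⋃ a, C a) ≠ ⋃ α, K α := by
  obtain ⟨e, rfl⟩ : ∃ e, d = e + 4 := ⟨d - 4, by omega⟩
  obtain ⟨r, rfl⟩ : ∃ r, n = r + 2 := ⟨n - 2, by omega⟩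
  obtain ⟨L, hL⟩ : ∃ L : ℕ, L = 2 ^ N + 4 := ⟨_, rfl⟩
  have hpos : 0 < 2 ^ N := by positivity
  have hL4 : 4 ≤ L := by omega
  have hL2 : 2 ≤ L := by omega
  have hLN : 2 ^ N < L := by omega
  have hi := Pool.Agent.Work.MP_ddc6c3_co.iInter_eq (e := e) (r := r) hL2
  refine ⟨Fin L × Fin (r + 1), inferInstance, Pool.Agent.Work.MP_ddc6c3_co.KK e L r,
    ⟨Pool.Agent.Work.MP_ddc6c3_co.KK_closed, Pool.Agent.Work.MP_ddc6c3_co.KK_convex, ?_, ?_, ?_⟩,
    Pool.Agent.Work.MP_ddc6c3_co.KK_injective hL2,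
    fun C hC => Pool.Agent.Work.MP_ddc6c3_co.no_cover hLN C hC⟩
  · rw [hi]
    exact ⟨Pool.Agent.Work.MP_ddc6c3_co.K0_compact hL4,
      Pool.Agent.Work.MP_ddc6c3_co.K0_convex hL2, Pool.Agent.Work.MP_ddc6c3_co.K0_interior⟩
  · intro α
    rw [hi]
    exact Pool.Agent.Work.MP_ddc6c3_co.K0_ssub hL2 α
  · refine ⟨⟨hn, fun S hS => ?_⟩, fun m hm => ?_⟩
    · rw [hi]
      exact Pool.Agent.Work.MP_ddc6c3_co.inter_many S hS
    · by_contra hlt
      obtain ⟨S, hS, hne⟩ := Pool.Agent.Work.MP_ddc6c3_co.inter_few (e := e) (r := r) hL2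
        (m := m) (by omega)
      exact hne ((hm.2 S hS).trans hi)

end Pool.Agent.Results.MP_ddc6c3_co.NoBound
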